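import Pool.Agent.W816.EC.Lmean
import Pool.Agent.W251.EX.Defs

set_option autoImplicit false

/-!
Project EX (helper251), part PNTC: the prime number theorem for the characters of `ℤ[i]`.
-/

open Finset Filter Topology Complex
open ArithmeticFunction (vonMangoldt)

namespace Pool.Agent.W22.EX

open Pool.Agent.W78.EC
open Pool.Agent.W816.EC
open Pool.Agent.H304R3.HK (bb Lg ccf lg_bb F_ne_zero F_ld)
open Pool.Agent.H304R3.HK.LogDerH (bco bco_norm_le bco_summable term_b)

/-- the logarithmic derivative -/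
lemma bco_ld {b c : ℕ → ℂ} (H : Lg b c) {F : ℂ → ℂ}
    (hF : ∀ s : ℂ, 1 < s.re → HasSum (fun n : ℕ => b n * (n : ℂ) ^ (-s)) (F s))
    {s : ℂ} (hs : 1 < s.re) : LSeries (bco c) s = -(deriv F s / F s) := by
  rw [F_ld b c H F hF s hs, neg_neg]
  unfold LSeries
  refine tsum_congr fun n => ?_
  rw [term_b (bco c) (by simp [bco]) s n, bco]

/-- continuation of the logarithmic derivative to the line `Re s = 1` -/
lemma ld_cont (hL : S_LCON) (hN : S_LNV) {M : ℕ} (hM : 1 ≤ M) {φ : Gi → ℂ} (H : HCh M φ) :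
    ∃ (δ : ℝ) (K : ℂ → ℂ), (δ = 0 ∨ δ = 1) ∧ ContinuousOn K {s | 1 ≤ s.re} ∧
      ∀ s : ℂ, 1 < s.re → K s = LSeries (bco (ccf (hφ H))) s - δ / (s - 1) := by
  have L1 := lg_bb _ (hφ_UH hM H)
  have e1 : aL φ = bb (hφ H) := funext fun n => aL_hφ H n
  have hre : ∀ s : ℂ, 1 ≤ s.re → s.re = 1 ∨ 1 < s.re := fun s hs => by
    rcases hs.eq_or_lt with h | h
    · exact Or.inl h.symm
    · exact Or.inr h
  have hform : ∀ s : ℂ, s.re = 1 → s = 1 + (s.im : ℝ) * I := by
    intro s hs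
    apply Complex.ext
    · simp [hs]
    · simp
  by_cases hnp : ∃ z, φ z ≠ 0 ∧ φ z ≠ 1
  · obtain ⟨g, hg, hgs⟩ := (hL M φ hM H).1 hnp
    have sF : ∀ s : ℂ, 1 < s.re → HasSum (fun n : ℕ => bb (hφ H) n * (n : ℂ) ^ (-s)) (g s) := by
      intro s hs
      obtain ⟨h1, h2⟩ := hgs s hs
      rw [h2, e1]
      rw [e1] at h1
      exact hs_of (bb_hφ0 H) h1
    refine ⟨0, fun s => -(deriv g s / g s), Or.inl rfl, ?_, ?_⟩
    · refine ContinuousOn.neg (ContinuousOn.div ?_ hg.continuous.continuousOn fun s hs => ?_)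
      · exact (hg.contDiff (n := 1)).continuous_deriv le_rfl |>.continuousOn
      · rcases hre s hs with h | h
        · rw [hform s h]
          exact hN M φ hM H g hg (Or.inl ⟨hnp, fun s hs => (hgs s hs).2⟩) s.im
        · exact F_ne_zero _ _ L1 g sF s h
    · intro s hs
      rw [bco_ld L1 sF hs]
      simp
  · have hp : ∀ z, φ z ≠ 0 → φ z = 1 := by
      intro z hz
      by_contra hc
      exact hnp ⟨z, hz, hc⟩
    obtain ⟨g, hg, -, hgs⟩ := (hL M φ hM H).2 hp
    have hs0 : ∀ s : ℂ, 1 < s.re → s - 1 ≠ 0 := by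
      intro s hs
      refine sub_ne_zero_of_ne ?_
      rintro rfl
      simp at hs
    have sF : ∀ s : ℂ, 1 < s.re →
        HasSum (fun n : ℕ => bb (hφ H) n * (n : ℂ) ^ (-s)) (g s / (s - 1)) := by
      intro s hs
      obtain ⟨h1, h2⟩ := hgs s hs
      have h3 : g s / (s - 1) = LSeries (bb (hφ H)) s := by
        rw [h2, e1, mul_div_cancel_left₀ _ (hs0 s hs)]
      rw [h3]
      rw [e1] at h1
      exact hs_of (bb_hφ0 H) h1
    refine ⟨1, fun s => -(deriv g s / g s), Or.inr rfl, ?_, ?_⟩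
    · refine ContinuousOn.neg (ContinuousOn.div ?_ hg.continuous.continuousOn fun s hs => ?_)
      · exact (hg.contDiff (n := 1)).continuous_deriv le_rfl |>.continuousOn
      · rcases hre s hs with h | h
        · rw [hform s h]
          exact hN M φ hM H g hg (Or.inr ⟨hp, fun s hs => (hgs s hs).2⟩) s.im
        · have := F_ne_zero _ _ L1 (fun s => g s / (s - 1)) sF s h
          intro h0
          apply this
          simp only [h0, zero_div]
    · intro s hs
      have h1 := hs0 s hs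
      have h2 : g s ≠ 0 := by
        have := F_ne_zero _ _ L1 (fun s => g s / (s - 1)) sF s hs
        intro h0
        apply this
        simp only [h0, zero_div]
      have h3 : deriv (fun s => g s / (s - 1)) s = (deriv g s * (s - 1) - g s * 1) / (s - 1) ^ 2 := by
        have hd : HasDerivAt (fun s => g s / (s - 1))
            ((deriv g s * (s - 1) - g s * 1) / (s - 1) ^ 2) s :=
          ((hg s).hasDerivAt).div ((hasDerivAt_id s).sub_const 1) h1
        exact hd.deriv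
      rw [bco_ld L1 sF hs, h3]
      simp only [Complex.ofReal_one]
      field_simp
      ring

/-- conjugation of Dirichlet series -/
lemma LS_conj (f : ℕ → ℂ) (s : ℂ) : LSeries (fun n => (starRingEnd ℂ) (f n)) s =
    (starRingEnd ℂ) (LSeries f ((starRingEnd ℂ) s)) := by
  unfold LSeries
  have h1 : (starRingEnd ℂ) (∑' n : ℕ, LSeries.term f ((starRingEnd ℂ) s) n) =
      ∑' n : ℕ, (starRingEnd ℂ) (LSeries.term f ((starRingEnd ℂ) s) n) := by
    rw [Complex.conj_tsum]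
  rw [h1]
  refine tsum_congr fun n => ?_
  rcases eq_or_ne n 0 with rfl | hn
  · simp
  · rw [LSeries.term_of_ne_zero hn, LSeries.term_of_ne_zero hn, map_div₀]
    congr 1
    have h2 : ((n : ℂ)).arg ≠ Real.pi := by
      rw [Complex.natCast_arg]
      exact Real.pi_ne_zero.symm
    rw [Complex.cpow_conj _ _ h2, Complex.conj_natCast, Complex.conj_conj]

lemma summ_conj (f : ℕ → ℂ) (s : ℂ) (h : LSeriesSummable f s) :
    LSeriesSummable (fun n => (starRingEnd ℂ) (f n)) s := by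
  refine Summable.of_norm_bounded h.norm fun n => ?_
  rcases eq_or_ne n 0 with rfl | hn
  · simp
  · rw [LSeries.term_of_ne_zero hn, LSeries.term_of_ne_zero hn, norm_div, norm_div,
      Complex.norm_conj]

/-- the continuation for `Λ` -/
lemma mangoldt_cont : ∃ G : ℂ → ℂ, ContinuousOn G {s | 1 ≤ s.re} ∧
    ∀ s : ℂ, 1 < s.re → G s = LSeries (fun n => ((vonMangoldt n : ℝ) : ℂ)) s - 1 / (s - 1) := by
  refine ⟨vonMangoldt.LFunctionResidueClassAux (1 : ZMod 1),
    vonMangoldt.continuousOn_LFunctionResidueClassAux (1 : ZMod 1), fun s hs => ?_⟩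
  rw [vonMangoldt.eqOn_LFunctionResidueClassAux isUnit_one hs]
  have h1 : (fun n => ((vonMangoldt.residueClass (1 : ZMod 1) n : ℝ) : ℂ)) =
      fun n => ((vonMangoldt n : ℝ) : ℂ) := by
    funext n
    unfold vonMangoldt.residueClass
    rw [Set.indicator_of_mem]
    exact Subsingleton.elim _ _
  simp only [h1, Nat.totient_one, Nat.cast_one, inv_one]

lemma taub2 (hL : S_LCON) (hN : S_LNV) {M : ℕ} (hM : 1 ≤ M) {φ : Gi → ℂ} (H : HCh M φ) :
    ∃ δ : ℝ, (δ = 0 ∨ δ = 1) ∧ ∀ ζ : ℂ, ‖ζ‖ ≤ 1 → Tendsto (fun x : ℝ => (∑ k ∈ Icc 1 ⌊x⌋₊,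
      (2 * vonMangoldt k + (ζ * bco (ccf (hφ H)) k).re)) / x) atTop (𝓝 (2 + ζ.re * δ)) := by
  obtain ⟨δ, K, hδ, hK, hKs⟩ := ld_cont hL hN hM H
  obtain ⟨G, hG, hGs⟩ := mangoldt_cont
  have L1 := lg_bb _ (hφ_UH hM H)
  refine ⟨δ, hδ, fun ζ hζ => ?_⟩
  have hre : ∀ k : ℕ, |(ζ * bco (ccf (hφ H)) k).re| ≤ 2 * vonMangoldt k := by
    intro k
    refine (Complex.abs_re_le_norm _).trans ?_
    rw [norm_mul]
    calc ‖ζ‖ * ‖bco (ccf (hφ H)) k‖ ≤ 1 * (2 * vonMangoldt k) :=
          mul_le_mul hζ (bco_norm_le _ _ L1 k) (norm_nonneg _) zero_le_one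
      _ = 2 * vonMangoldt k := one_mul _
  refine Pool.Agent.Helper923.PNT.wiener_ikehara
    (fun k => 2 * vonMangoldt k + (ζ * bco (ccf (hφ H)) k).re) ?_ (4 * (Real.log 4 + 4))
    (2 + ζ.re * δ) ?_
    (fun s => 2 * G s + (ζ / 2 * K s +
      (starRingEnd ℂ) ζ / 2 * (starRingEnd ℂ) (K ((starRingEnd ℂ) s)))) ?_ ?_
  · intro k
    have := abs_le.1 (hre k)
    linarith [this.1]
  · intro n
    have h1 : ∑ k ∈ Icc 1 n, vonMangoldt k ≤ (Real.log 4 + 4) * n := by
      have h2 : ∑ k ∈ Icc 1 n, vonMangoldt k ≤ Chebyshev.psi n := by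
        unfold Chebyshev.psi
        rw [Nat.floor_natCast]
        exact le_rfl
      exact h2.trans (Chebyshev.psi_le_const_mul_self (Nat.cast_nonneg n))
    calc ∑ k ∈ Icc 1 n, (2 * vonMangoldt k + (ζ * bco (ccf (hφ H)) k).re)
        ≤ ∑ k ∈ Icc 1 n, 4 * vonMangoldt k :=
          Finset.sum_le_sum fun k _ => by
            have := (le_abs_self _).trans (hre k)
            linarith
      _ = 4 * ∑ k ∈ Icc 1 n, vonMangoldt k := by rw [Finset.mul_sum]
      _ ≤ 4 * (Real.log 4 + 4) * n := by linarith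
  · refine (continuousOn_const.mul hG).add ((continuousOn_const.mul hK).add
      (continuousOn_const.mul ?_))
    refine Complex.continuous_conj.comp_continuousOn (hK.comp Complex.continuous_conj.continuousOn
      fun s hs => ?_)
    simpa using hs
  · intro s hs
    have hs' : 1 < ((starRingEnd ℂ) s).re := by simpa using hs
    have e1 : (fun n : ℕ => ((2 * vonMangoldt n + (ζ * bco (ccf (hφ H)) n).re : ℝ) : ℂ)) =
        ((2 : ℂ) • (fun n => ((vonMangoldt n : ℝ) : ℂ))) + ((ζ / 2) • bco (ccf (hφ H)) +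
          ((starRingEnd ℂ) ζ / 2) • (fun n => (starRingEnd ℂ) (bco (ccf (hφ H)) n))) := by
      funext n
      simp only [Pi.add_apply, Pi.smul_apply, smul_eq_mul]
      push_cast
      rw [Complex.re_eq_add_conj]
      simp only [map_mul]
      ring
    have s0 := ArithmeticFunction.LSeriesSummable_vonMangoldt (s := s) hs
    have s1 := bco_summable _ _ L1 s hs
    have s2 := summ_conj _ _ s1
    rw [e1, LSeries_add (s0.smul _) ((s1.smul _).add (s2.smul _)),
      LSeries_add (s1.smul _) (s2.smul _), LSeries_smul, LSeries_smul, LSeries_smul, hGs s hs,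
      hKs s hs, hKs _ hs', LS_conj]
    simp only [map_sub, map_div₀, map_one, Complex.conj_conj, Complex.conj_ofReal]
    have h1 : s - 1 ≠ 0 := by
      refine sub_ne_zero_of_ne ?_
      rintro rfl
      simp at hs
    push_cast
    rw [Complex.re_eq_add_conj]
    field_simp
    ring

theorem pntc (hL : S_LCON) (hN : S_LNV) : Pool.Agent.W251.EX.S_PNTC := by
  intro M φ hM H
  obtain ⟨δ, hδ, hA⟩ := taub2 hL hN hM H
  have L1 := lg_bb _ (hφ_UH hM H)
  have e1 : aL φ = bb (hφ H) := funext fun n => aL_hφ H n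
  refine ⟨ccf (hφ H), δ, by rw [e1]; exact L1, hδ, ?_⟩
  have h0 := hA 0 (by simp)
  have key : ∀ ζ : ℂ, ‖ζ‖ ≤ 1 → Tendsto (fun x : ℝ => (∑ k ∈ Icc 1 ⌊x⌋₊,
      (ζ * bco (ccf (hφ H)) k).re) / x) atTop (𝓝 (ζ.re * δ)) := by
    intro ζ hζ
    have h1 := (hA ζ hζ).sub h0
    have e2 : 2 + ζ.re * δ - (2 + (0 : ℂ).re * δ) = ζ.re * δ := by simp
    rw [e2] at h1
    refine h1.congr fun x => ?_
    rw [← sub_div, ← Finset.sum_sub_distrib]
    congr 1
    refine Finset.sum_congr rfl fun k _ => ?_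
    simp
  have h1 := key 1 (by simp)
  have h2 := key (-I) (by simp)
  rw [Complex.one_re, one_mul] at h1
  have e3 : (-I).re * δ = 0 := by simp
  rw [e3] at h2
  have h3 := (Complex.continuous_ofReal.tendsto _).comp h1
  have h4 := ((Complex.continuous_ofReal.tendsto _).comp h2).mul_const I
  have h5 := h3.add h4
  rw [Complex.ofReal_zero, zero_mul, add_zero] at h5
  refine h5.congr fun x => ?_
  simp only [Function.comp]
  have h6 : ∑ n ∈ Icc 1 ⌊x⌋₊, ((vonMangoldt n : ℝ) : ℂ) * ccf (hφ H) n =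
      ∑ k ∈ Icc 1 ⌊x⌋₊, bco (ccf (hφ H)) k := rfl
  rw [h6]
  have h7 : ∑ k ∈ Icc 1 ⌊x⌋₊, ((1 : ℂ) * bco (ccf (hφ H)) k).re =
      (∑ k ∈ Icc 1 ⌊x⌋₊, bco (ccf (hφ H)) k).re := by
    rw [Complex.re_sum]
    exact Finset.sum_congr rfl fun k _ => by rw [one_mul]
  have h8 : ∑ k ∈ Icc 1 ⌊x⌋₊, (-I * bco (ccf (hφ H)) k).re =
      (∑ k ∈ Icc 1 ⌊x⌋₊, bco (ccf (hφ H)) k).im := by
    rw [Complex.im_sum]
    exact Finset.sum_congr rfl fun k _ => by rw [Complex.mul_re]; simp
  rw [h7, h8]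
  set z := ∑ k ∈ Icc 1 ⌊x⌋₊, bco (ccf (hφ H)) k
  have h9 : z = (z.re : ℂ) + (z.im : ℂ) * I := (Complex.re_add_im z).symm
  conv_rhs => rw [h9]
  push_cast
  ring

end Pool.Agent.W22.EX
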